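import Pool.Agent.H897.LE

/-!
MP_4329d7_ag, Q1 (Mumford's conjecture): holomorphic tensors on varieties of negative Kodaira
dimension and the distributions which are invariant under all dominant rational self-maps.

**Varieties as function fields.** `K` is a finitely generated field of transcendence degree `n` over
`ℂ`, the function field of a smooth projective variety `X` of dimension `n`. A rational vector field
on `X` is an element of `Derivation ℂ K K`. `Place ℂ K` is the type of the discrete valuations of
`K`, `v.ord f` is the order of `f`, `v.Reg f` means that `f` has no pole along `v`, and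
`IsDivisorial v n` means that `v` is a prime divisor on some smooth projective model of `X`.

`TensorOrb n (fun _ => 0) T` (`Pool/Graph/.../N133/TB/Stm.lean`): the `m`-linear form `T` on the
rational vector fields with values in `K` is regular along each prime divisor over `X`, that is `T`
is a holomorphic section of the `m`-th tensor power of `Ω_X` (the orbifold condition of the
definition is trivial for the multiplicity `0`: if all vector fields `D j` are regular along `v`,
then `v.ord (T D) ≥ 0`).

`PairSec ℂ K n (fun _ => 0) {1} m 0 ω` (`Pool/Graph/R_seed8/Y174/BDefs.lean`): `ω` is a holomorphic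
`m`-fold pluricanonical form. `PairKod ℂ K n (fun _ => 0) h`: `κ (X) ≥ h`, for some `m ≥ 1` there
are `h + 1` holomorphic `m`-fold pluricanonical forms with algebraically independent ratios. So
`¬ PairKod ℂ K n (fun _ => 0) 0` means `κ (X) = - ∞`. `PairRatio ℂ K n (fun _ => 0)`: the set of the
ratios of the pluricanonical forms of the same weight.

**Dominant rational self-maps.** A dominant rational map from `X` to `X` is a homomorphism
`φ : K →ₐ[ℂ] K`. `LiftOf φ D D'` (`LA.lean`): the vector field `D'` is the pull-back of the vector
field `D` under the (generically étale) self-map, `D' (φ f) = φ (D f)`. `SelfInv F` (`LC.lean`): the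
distribution `F` (a `K`-subspace of the rational vector fields, not necessarily closed under Lie
brackets) is invariant under all dominant rational self-maps of `X`, in the strong sense that the
pull-back of a vector field `D` is in `F` if and only if `D` is in `F`.

`IsUniruled ℂ K n` (`Pool/Graph/R_seed8/W619/PQ/Defs.lean`): `X` is uniruled, that is `K` embeds
into `M(t)` for the function field `M` of a variety `Z` of dimension `n - 1`; such an embedding is a
dominant rational map `P¹ × Z ⇢ X`, a covering family of rational curves. `curveConst K n`
(`LE.lean`): the field of the rational functions on `X` which are constant on the rational curves of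
all covering families. `CurveConnected K n`: this field is `ℂ`. By Campana's and Kollár-Miyaoka-Mori's
construction of the rationally connected quotient this is equivalent to the rational connectedness
of `X`. `killD I`: the vector fields which vanish on the subfield `I`.

**Theorem.** (1) Let `κ (X) = - ∞`, and suppose that there is a nonzero holomorphic tensor of some
degree between `1` and `M`. Then there is a distribution `F ≠ 0, T_X` which is invariant under all
dominant rational self-maps of `X`, and on which all holomorphic tensors of the degrees `1, …, M`
vanish.
(2) Suppose that `0` and `T_X` are the only distributions which are invariant under all dominant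
rational self-maps of `X` (for instance, that some dominant rational self-map of `X` has no other
invariant distributions). Then
(a) `X` has a nonzero holomorphic tensor of some degree `m ≥ 1` if and only if `κ (X) ≥ 0`, and
`κ (X)` is `- ∞`, `0` or `n`;
(b) if `X` is uniruled, then it is connected by the curves of the covering families;
(c) the statement of Mumford's conjecture for `X` (if `X` has no holomorphic tensors, then it is
connected by rational curves) is equivalent to the statement of the uniruledness conjecture for `X`
(if `κ (X) = - ∞`, then `X` is uniruled).

In general it is known that the uniruledness conjecture implies Mumford's conjecture; part (c)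
contains the converse implication for the varieties of (2).

**Proof.** The pull-back by a generically finite map gives an injective semilinear map from the
`K`-space spanned by the holomorphic tensors of the degree `d` to itself, so it maps bases to bases.
If `κ (X) = - ∞` then all semi-invariants of the tensors of degree at most `M` vanish, and the
optimal filtration of Kempf exists; the pull-backs of a basis which is adapted to the optimal
filtration are adapted to the pulled back tensors with the same weights, so by the uniqueness of the
optimal filtration it is invariant. The field generated by the ratios of the pluricanonical forms,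
and the field of the functions which are constant on the curves of the covering families, are mapped
into themselves by `φ`, and hence they are algebraic over their images. So the distributions of the
vector fields which vanish on them are invariant too.
-/

set_option autoImplicit false

open FF Pool.Agent.Y174 Pool.Agent.N133.TB Pool.Agent.W619.PQ Pool.Agent.H897

namespace Pool.Agent.Results.MP_4329d7_ag.SelfMapTensors

/-- **Tensors and distributions invariant under dominant rational self-maps.** -/
theorem result {K : Type} [Field K] [Algebra ℂ K] (hess : Algebra.EssFiniteType ℂ K) {n : ℕ}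
    (hn : Algebra.trdeg ℂ K = n) (hn1 : 1 ≤ n) :
    (¬ PairKod ℂ K n (fun _ => 0) 0 → ∀ M : ℕ,
      (∃ m, 1 ≤ m ∧ m ≤ M ∧ ∃ T : MultilinearMap K (fun _ : Fin m => Derivation ℂ K K) K,
        TensorOrb n (fun _ => 0) T ∧ T ≠ 0) →
      ∃ F : Submodule K (Derivation ℂ K K), F ≠ ⊥ ∧ F ≠ ⊤ ∧ SelfInv F ∧
        ∀ m, 1 ≤ m → m ≤ M → ∀ T : MultilinearMap K (fun _ : Fin m => Derivation ℂ K K) K,
          TensorOrb n (fun _ => 0) T → ∀ D : Fin m → Derivation ℂ K K,
            (∀ j, D j ∈ F) → T D = 0) ∧
    ((∀ F : Submodule K (Derivation ℂ K K), SelfInv F → F = ⊥ ∨ F = ⊤) →
      ((∃ m, 1 ≤ m ∧ ∃ T : MultilinearMap K (fun _ : Fin m => Derivation ℂ K K) K,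
        TensorOrb n (fun _ => 0) T ∧ T ≠ 0) ↔ PairKod ℂ K n (fun _ => 0) 0) ∧
      (PairKod ℂ K n (fun _ => 0) 0 →
        ¬ PairKod ℂ K n (fun _ => 0) 1 ∨ PairKod ℂ K n (fun _ => 0) n) ∧
      (IsUniruled ℂ K n → CurveConnected K n) ∧
      (((∀ m, 1 ≤ m → ∀ T : MultilinearMap K (fun _ : Fin m => Derivation ℂ K K) K,
        TensorOrb n (fun _ => 0) T → T = 0) → CurveConnected K n) ↔
        (¬ PairKod ℂ K n (fun _ => 0) 0 → IsUniruled ℂ K n))) := by
  refine ⟨fun hκ M hM => self_inv hess hn hn1 hκ M hM, fun hirr => ?_⟩
  have h1 : (∃ m, 1 ≤ m ∧ ∃ T : MultilinearMap K (fun _ : Fin m => Derivation ℂ K K) K,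
        TensorOrb n (fun _ => 0) T ∧ T ≠ 0) ↔ PairKod ℂ K n (fun _ => 0) 0 := by
    constructor
    · rintro ⟨m, hm, T, hT, hT0⟩
      by_contra hκ
      obtain ⟨F, hF0, hF1, hF, -⟩ := self_inv hess hn hn1 hκ m ⟨m, hm, le_rfl, T, hT, hT0⟩
      rcases hirr F hF with h | h
      · exact hF0 h
      · exact hF1 h
    · rintro ⟨k, hk, ω, hω, D, hD, -⟩
      exact tensor_of_form hn hn1 hk (hω 0) ⟨D, hD 0⟩
  have h2 : IsUniruled ℂ K n → CurveConnected K n := by
    intro hu
    rcases hirr _ (killD_inv hess hn (I := curveConst K n) fun φ x hx => curveConst_map φ hx)
      with h | h
    · exact absurd hu (not_uniruled_of_bot hn h)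
    · exact connected_of_top h
  refine ⟨h1, fun hκ => ?_, h2, ⟨fun h hκ => ?_, fun h hT => ?_⟩⟩
  · rcases hirr (iitD K n) (selfInv_of hess hn fun φ D D' hD hD' => iitD_inv hn φ hD hD')
      with h | h
    · exact Or.inr (kod_of_bot hn h hκ)
    · exact Or.inl (kod_of_top h)
  · refine uniruled_of_connected hn hn1 (h fun m hm T hT => ?_)
    by_contra hT0
    exact hκ (h1.1 ⟨m, hm, T, hT, hT0⟩)
  · refine h2 (h fun hκ => ?_)
    obtain ⟨m, hm, T, hT1, hT0⟩ := h1.2 hκ
    exact hT0 (hT m hm T hT1)

end Pool.Agent.Results.MP_4329d7_ag.SelfMapTensors
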